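import Pool.Agent.H53.GM.Targets

/-!
# PIN: pinning
-/

set_option autoImplicit false
set_option linter.unusedVariables false

namespace Pool.Agent.H58.GM

open Pool.Agent.H68.BP Pool.Agent.H58.SF Pool.Agent.H53.GC Pool.Agent.H53.GR Pool.Agent.H53.GM
open Classical

section

variable {X 𝓛 : Type} {N k : ℕ} {R : 𝓛 → (So N k → X) → Prop} {I : Finset (Fin k)}

lemma fmI_pr {J : Type} (i : J) : FmI R I J (fun _ w => w i) :=
  ⟨fun l p hp => hp.1 i, fun _ _ => rfl⟩

lemma vt_app {J J' : Type} [Nonempty J'] {l : 𝓛} {p : J' → So N k → X} (hp : VT R l I p)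
    {G : J → So N k → (J' → X) → X} (hG : ∀ j, FmI R I J' (G j)) :
    VT R l I (fun j e => G j e (fun i => p i e)) := by
  refine ⟨fun j => (hG j).fam l p hp, fun e he j j' => ?_⟩
  obtain ⟨i₀⟩ := (inferInstance : Nonempty J')
  have h1 : (fun i => p i e) = fun _ => p i₀ e := funext fun i => hp.2 e he i i₀
  simp only [h1]
  rw [(hG j).idem, (hG j').idem]

lemma fmI_comp {J J' : Type} [Nonempty J'] {F : So N k → (J → X) → X} (hF : FmI R I J F)
    {G : J → So N k → (J' → X) → X} (hG : ∀ j, FmI R I J' (G j)) :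
    FmI R I J' (fun e w => F e (fun j => G j e w)) := by
  refine ⟨fun l p hp => hF.fam l (fun j e => G j e (fun i => p i e)) (vt_app hp hG), ?_⟩
  intro e t
  have h1 : (fun j => G j e (fun _ => t)) = fun _ => t := funext fun j => (hG j).idem e t
  simp only [h1]
  exact hF.idem e t

variable {l₀ : 𝓛} {ι : (J : Type) → [Finite J] → [Nonempty J] → (So N k → (J → X) → X) → J}

lemma pin_step (hι : Iot R l₀ I ι) {e : So N k} (he : ¬ Loc R l₀ I ι e) :
    ∀ (n : ℕ) (p : Fin (n + 1) → So N k → X), VT R l₀ I p →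
    ∃ F : Fin (n + 1) → So N k → (Fin (n + 1) → X) → X, (∀ i, FmI R I (Fin (n + 1)) (F i)) ∧
      (∀ i, ι (Fin (n + 1)) (F i) = i) ∧
      ∀ i i', F i e (fun j => p j e) = F i' e (fun j => p j e) := by
  intro n
  induction n with
  | zero =>
    intro p _
    have hs : ∀ i i' : Fin (0 + 1), i = i' := fun i i' => Fin.ext (by omega)
    refine ⟨fun i _ w => w i, fun i => fmI_pr i, fun i => hs _ _, ?_⟩
    intro i i'
    rw [hs i i']
  | succ n ih =>
    intro p hp
    have h1 : ∃ F G : So N k → (Fin (n + 2) → X) → X, FmI R I (Fin (n + 2)) F ∧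
        FmI R I (Fin (n + 2)) G ∧ F e (fun i => p i e) = G e (fun i => p i e) ∧
        ι (Fin (n + 2)) F ≠ ι (Fin (n + 2)) G := by
      by_contra hcon
      apply he
      refine ⟨n, p, hp, fun F G hF hG h => ?_⟩
      by_contra h2
      exact hcon ⟨F, G, hF, hG, h, h2⟩
    obtain ⟨F, G, hF, hG, hFG, hne⟩ := h1
    obtain ⟨k₂, hk₂⟩ : ∃ k₂, k₂ = ι (Fin (n + 2)) G := ⟨_, rfl⟩
    rw [← hk₂] at hne
    obtain ⟨j₁, hj₁⟩ := Fin.exists_succAbove_eq hne
    let T : (So N k → (Fin (n + 2) → X) → X) → Fin (n + 1) → So N k → (Fin (n + 2) → X) → X :=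
      fun H j => if j = j₁ then H else fun _ w => w (k₂.succAbove j)
    have hT : ∀ H, FmI R I (Fin (n + 2)) H → ∀ j, FmI R I (Fin (n + 2)) (T H j) := by
      intro H hH j
      simp only [T]
      split_ifs
      · exact hH
      · exact fmI_pr _
    obtain ⟨F', hF', hιF', hF'e⟩ := ih (fun j e => T F j e (fun i => p i e)) (vt_app hp (hT F hF))
    have hTe : (fun j => T G j e (fun i => p i e)) = fun j => T F j e (fun i => p i e) := by
      funext j
      simp only [T]
      split_ifs
      · exact hFG.symm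
      · rfl
    have hιT : ∀ j, j ≠ j₁ → ι (Fin (n + 2)) (T F j) = k₂.succAbove j := by
      intro j hj
      simp only [T, if_neg hj]
      exact hι.pr _ _
    let E : Fin (n + 2) → So N k → (Fin (n + 2) → X) → X := fun κ =>
      if h : κ = k₂ then fun e w => F' j₁ e (fun j => T G j e w)
      else fun e w => F' (Fin.exists_succAbove_eq h).choose e (fun j => T F j e w)
    refine ⟨E, ?_, ?_, ?_⟩
    · intro κ
      simp only [E]
      split_ifs
      · exact fmI_comp (hF' _) (hT G hG)
      · exact fmI_comp (hF' _) (hT F hF)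
    · intro κ
      simp only [E]
      split_ifs with h
      · rw [hι.comp (Fin (n + 1)) (Fin (n + 2)) (F' j₁) (T G) (hF' _) (hT G hG), hιF']
        simp only [T, if_true]
        rw [← hk₂, h]
      · have h2 := (Fin.exists_succAbove_eq h).choose_spec
        rw [hι.comp (Fin (n + 1)) (Fin (n + 2)) (F' _) (T F) (hF' _) (hT F hF), hιF']
        by_cases h3 : (Fin.exists_succAbove_eq h).choose = j₁
        · rw [h3] at h2 ⊢
          simp only [T, if_true]
          rw [← hj₁, h2]
        · rw [hιT _ h3, h2]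
    · have hval : ∀ κ, E κ e (fun j => p j e) = F' j₁ e (fun j => T F j e (fun i => p i e)) := by
        intro κ
        simp only [E]
        split_ifs with h
        · show F' j₁ e (fun j => T G j e (fun i => p i e)) = _
          rw [hTe]
        · exact hF'e _ _
      intro κ κ'
      rw [hval, hval]

end

theorem pf_PIN : T_PIN := by
  intro X 𝓛 _ N k R l₀ rd I ι hB hι n
  have key : ∀ T : Finset (So N k × (Fin (n + 1) → So N k → X)),
      ∃ F : Fin (n + 1) → So N k → (Fin (n + 1) → X) → X, (∀ i, FmI R I (Fin (n + 1)) (F i)) ∧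
      (∀ i, ι (Fin (n + 1)) (F i) = i) ∧
      ∀ q ∈ T, ¬ Loc R l₀ I ι q.1 → VT R l₀ I q.2 → ∀ i i',
        F i q.1 (fun j => q.2 j q.1) = F i' q.1 (fun j => q.2 j q.1) := by
    intro T
    induction T using Finset.induction_on with
    | empty =>
      exact ⟨fun i _ w => w i, fun i => fmI_pr i, fun i => hι.pr _ i, fun q hq => absurd hq
        (Finset.notMem_empty q)⟩
    | insert q T hq ih =>
      obtain ⟨F, hF, hιF, hFT⟩ := ih
      by_cases h : ¬ Loc R l₀ I ι q.1 ∧ VT R l₀ I q.2
      · obtain ⟨G, hG, hιG, hGe⟩ := pin_step hι h.1 n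
          (fun j e => F j e (fun i => q.2 i e)) (vt_app h.2 hF)
        refine ⟨fun κ e w => G κ e (fun j => F j e w), fun κ => fmI_comp (hG κ) hF, ?_, ?_⟩
        · intro κ
          rw [hι.comp (Fin (n + 1)) (Fin (n + 1)) (G κ) F (hG κ) hF, hιG, hιF]
        · intro q' hq' h1 h2 i i'
          rcases Finset.mem_insert.1 hq' with h3 | h3
          · rw [h3]
            exact hGe i i'
          · have h4 : (fun j => F j q'.1 (fun i => q'.2 i q'.1)) =
                fun _ => F 0 q'.1 (fun i => q'.2 i q'.1) :=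
              funext fun j => hFT q' h3 h1 h2 j 0
            simp only [h4]
            rw [(hG i).idem, (hG i').idem]
      · refine ⟨F, hF, hιF, ?_⟩
        intro q' hq' h1 h2
        rcases Finset.mem_insert.1 hq' with h3 | h3
        · exact absurd ⟨h3 ▸ h1, h3 ▸ h2⟩ h
        · exact hFT q' h3 h1 h2
  have hfin : Finite (So N k × (Fin (n + 1) → So N k → X)) := by
    have : Finite (So N k) := inferInstance
    infer_instance
  obtain ⟨T, hT⟩ : ∃ T : Finset (So N k × (Fin (n + 1) → So N k → X)), ∀ q, q ∈ T := by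
    have := Fintype.ofFinite (So N k × (Fin (n + 1) → So N k → X))
    exact ⟨Finset.univ, fun q => Finset.mem_univ q⟩
  obtain ⟨F, hF, hιF, hFT⟩ := key T
  exact ⟨F, hF, hιF, fun e he i i' p hp => hFT (e, p) (hT _) he hp i i'⟩

end Pool.Agent.H58.GM
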